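import Mathlib
import Pool.Agent.Lib.MP_355270_an.Forward
import Pool.Agent.Lib.MP_355270_an.Converse
import Pool.Agent.Lib.MP_355270_an.CB.Main
import Pool.Agent.Lib.MP_355270_an.C0.Coord

open Filter Topology
open scoped ENNReal

namespace Pool.Agent.Results.MP_355270_an.Answer

universe u

/-- `E` has an approximative basis: bounded operators `v n` on `E` of finite rank with
`v n x → x` for every `x`. -/
def HasApproximativeBasis (𝕜 : Type) [RCLike 𝕜] (E : Type u) [NormedAddCommGroup E]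
    [NormedSpace 𝕜 E] : Prop :=
  ∃ v : ℕ → E →L[𝕜] E, (∀ n, FiniteDimensional 𝕜 (v n).toLinearMap.range) ∧
    ∀ x, Tendsto (fun n => v n x) atTop (𝓝 x)

/-- The sequences `(G n)` of finite-dimensional spaces admitted in the definition of `C_p`:
(i) every finite-dimensional space is `(1 + ε)`-isomorphic to some `G n`, for every `ε > 0`;
(ii) every `G i` is isometric to `G j` for infinitely many `j`. -/
structure IsAdmissible (𝕜 : Type) [RCLike 𝕜] (G : ℕ → Type u) [∀ n, NormedAddCommGroup (G n)]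
    [∀ n, NormedSpace 𝕜 (G n)] : Prop where
  finite : ∀ n, FiniteDimensional 𝕜 (G n)
  dense : ∀ (A : Type u) [NormedAddCommGroup A] [NormedSpace 𝕜 A] [FiniteDimensional 𝕜 A]
    (ε : ℝ), 0 < ε → ∃ n, ∃ T : A ≃L[𝕜] G n,
      ‖(T : A →L[𝕜] G n)‖ * ‖(T.symm : G n →L[𝕜] A)‖ ≤ 1 + ε
  repeated : ∀ i, {j | Nonempty (G i ≃ₗᵢ[𝕜] G j)}.Infinite

/-- `C` is (up to isometry) the space `C_∞ = (G_1 × G_2 × ⋯)_{c_0}`: with the coordinate maps
`π n : C → G n`, the elements of `C` correspond to the sequences `y`, `y n ∈ G n`, with `‖y n‖ → 0`,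
and the norm of `C` is the supremum of the norms of the coordinates. -/
def IsC0Sum (𝕜 : Type) [RCLike 𝕜] (G : ℕ → Type u) [∀ n, NormedAddCommGroup (G n)]
    [∀ n, NormedSpace 𝕜 (G n)] (C : Type u) [NormedAddCommGroup C] [NormedSpace 𝕜 C] : Prop :=
  ∃ π : ∀ n, C →ₗ[𝕜] G n, (∀ x, Tendsto (fun n => ‖π n x‖) atTop (𝓝 0)) ∧
    (∀ y : ∀ n, G n, Tendsto (fun n => ‖y n‖) atTop (𝓝 0) → ∃ x, ∀ n, π n x = y n) ∧
    ∀ x, IsLUB (Set.range fun n => ‖π n x‖) ‖x‖

/-- The space `C_∞` exists (for every sequence `(G n)`). -/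
theorem exists_isC0Sum (𝕜 : Type) [RCLike 𝕜] (G : ℕ → Type u) [∀ n, NormedAddCommGroup (G n)]
    [∀ n, NormedSpace 𝕜 (G n)] : ∃ (C : Type u) (_ : NormedAddCommGroup C)
    (_ : NormedSpace 𝕜 C), IsC0Sum 𝕜 G C :=
  ⟨Pool.Agent.Lib.MP_355270_an.c0sum 𝕜 G, inferInstance, inferInstance,
    Pool.Agent.Lib.MP_355270_an.c0sum_coord⟩

/-- `E × C` has a Schauder basis. -/
def ProdHasBasis (𝕜 : Type) [RCLike 𝕜] (E C : Type u) [NormedAddCommGroup E] [NormedSpace 𝕜 E]
    [NormedAddCommGroup C] [NormedSpace 𝕜 C] : Prop :=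
  Nonempty (SchauderBasis 𝕜 (E × C))

/-- **Complete answer.** Here `𝕜` is `ℝ` or `ℂ`.
(1) For `1 < p < ∞` the answer is negative: there is a Banach space `E` with an approximative basis
such that for all these `p` and all sequences `(G n)` of finite-dimensional spaces (admissible or not)
the space `E × C_p`, `C_p = (⊕ G n)_{ℓ^p}`, has no Schauder basis.
(2) For `p = 1` and for `p = ∞` the answer is positive: for every admissible `(G n)`, `E × C_p` has a
Schauder basis if (and only if) the Banach space `E` has an approximative basis. -/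
theorem result (𝕜 : Type) [RCLike 𝕜] :
    (∃ (E : Type u) (_ : NormedAddCommGroup E) (_ : NormedSpace 𝕜 E), CompleteSpace E ∧
      HasApproximativeBasis 𝕜 E ∧
      ∀ (p : ℝ≥0∞) [Fact (1 ≤ p)], 1 < p → p ≠ ∞ →
        ∀ (G : ℕ → Type u) [∀ n, NormedAddCommGroup (G n)] [∀ n, NormedSpace 𝕜 (G n)],
          (∀ n, FiniteDimensional 𝕜 (G n)) → ¬ ProdHasBasis 𝕜 E (lp G p)) ∧
    (∀ (G : ℕ → Type u) [∀ n, NormedAddCommGroup (G n)] [∀ n, NormedSpace 𝕜 (G n)],
      IsAdmissible 𝕜 G → ∀ (E : Type u) [NormedAddCommGroup E] [NormedSpace 𝕜 E] [CompleteSpace E],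
        (ProdHasBasis 𝕜 E (lp G 1) ↔ HasApproximativeBasis 𝕜 E) ∧
        ∀ (C : Type u) [NormedAddCommGroup C] [NormedSpace 𝕜 C], IsC0Sum 𝕜 G C →
          (ProdHasBasis 𝕜 E C ↔ HasApproximativeBasis 𝕜 E)) := by
  refine ⟨?_, fun G _ _ hG E _ _ _ => ⟨?_, ?_⟩⟩
  · obtain ⟨X, _, _, _, ⟨v, hv1, hv2⟩, hno⟩ := Pool.Agent.Lib.MP_355270_an.CB.q_finalK 𝕜
    let j : ULift.{u} X ≃L[𝕜] X := ContinuousLinearEquiv.ulift
    refine ⟨ULift.{u} X, inferInstance, inferInstance, inferInstance, ?_, ?_⟩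
    · refine ⟨fun n => ((j.symm : X →L[𝕜] ULift.{u} X).comp (v n)).comp
        (j : ULift.{u} X →L[𝕜] X), fun n => ?_, fun x => ?_⟩
      · have : FiniteDimensional 𝕜 (v n).toLinearMap.range := hv1 n
        have hle : (((j.symm : X →L[𝕜] ULift.{u} X).comp (v n)).comp
            (j : ULift.{u} X →L[𝕜] X)).toLinearMap.range ≤
            (v n).toLinearMap.range.map (j.symm : X →L[𝕜] ULift.{u} X).toLinearMap := by
          rintro _ ⟨x, rfl⟩
          exact ⟨v n (j x), ⟨j x, rfl⟩, rfl⟩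
        exact Submodule.finiteDimensional_of_le hle
      · have h := (j.symm.continuous.tendsto (j x)).comp (hv2 (j x))
        rw [j.symm_apply_apply] at h
        exact h
    · intro p _ hp1 hp G _ _ hG
      rintro ⟨b⟩
      refine hno ?_
      obtain ⟨w, hw1, hw2, hw3⟩ := Pool.Agent.Lib.MP_355270_an.converse (E := ULift.{u} X) (G := G)
        hp hp1 (fun n => b.proj n)
        (fun n => by
          rw [SchauderBasis.range_proj_eq_span]
          exact FiniteDimensional.span_of_finite 𝕜 (Set.Finite.image _ (Finset.finite_toSet _)))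
        (fun z => SchauderBasis.tendsto_proj b z)
        (fun n m _ => ContinuousLinearMap.ext fun z => SchauderBasis.proj_comp b n m z)
      refine ⟨fun n => ((j : ULift.{u} X →L[𝕜] X).comp (w n)).comp
        (j.symm : X →L[𝕜] ULift.{u} X), fun n => ?_, fun x => ?_, fun n m hnm => ?_⟩
      · have : FiniteDimensional 𝕜 (w n).toLinearMap.range := hw1 n
        have hle : (((j : ULift.{u} X →L[𝕜] X).comp (w n)).comp
            (j.symm : X →L[𝕜] ULift.{u} X)).toLinearMap.range ≤
            (w n).toLinearMap.range.map (j : ULift.{u} X →L[𝕜] X).toLinearMap := by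
          rintro _ ⟨x, rfl⟩
          exact ⟨w n (j.symm x), ⟨j.symm x, rfl⟩, rfl⟩
        exact Submodule.finiteDimensional_of_le hle
      · have h := (j.continuous.tendsto (j.symm x)).comp (hw2 (j.symm x))
        rw [j.apply_symm_apply] at h
        exact h
      · refine ContinuousLinearMap.ext fun x => ?_
        have h := congrArg (fun f => f (j.symm x)) (hw3 n m hnm)
        have h' : w n (w m (j.symm x)) = w (min n m) (j.symm x) := h
        show j (w n (j.symm (j (w m (j.symm x))))) = j (w (min n m) (j.symm x))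
        rw [j.symm_apply_apply, h']
  · constructor
    · intro h
      exact Pool.Agent.Lib.MP_355270_an.approx_of_basis h
    · rintro ⟨v, hv1, hv2⟩
      exact Pool.Agent.Lib.MP_355270_an.main hG.finite hG.dense hG.repeated v hv1 hv2
  · rintro C _ _ ⟨π, h1, h2, h3⟩
    constructor
    · intro h
      exact Pool.Agent.Lib.MP_355270_an.approx_of_basis h
    · rintro ⟨v, hv1, hv2⟩
      obtain ⟨e⟩ := Pool.Agent.Lib.MP_355270_an.c0_of_coord π h1 h2 h3
      exact Pool.Agent.Lib.MP_355270_an.basis_transport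
        ((ContinuousLinearEquiv.refl 𝕜 E).prodCongr e.symm)
        (Pool.Agent.Lib.MP_355270_an.lusky hG.finite hG.dense hG.repeated v hv1 hv2)

end Pool.Agent.Results.MP_355270_an.Answer
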