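import Mathlib
import Pool.Agent.Lib.MP_355270_an.Forward
import Pool.Agent.Lib.MP_355270_an.Converse

open Filter Topology
open scoped ENNReal

namespace Pool.Agent.Results.MP_355270_an.MiddleRange

universe u

/-- `E` has an approximative basis: bounded operators `v n` on `E` of finite rank with
`v n x → x` for every `x`. -/
def HasApproximativeBasis (𝕜 : Type) [RCLike 𝕜] (E : Type u) [NormedAddCommGroup E]
    [NormedSpace 𝕜 E] : Prop :=
  ∃ v : ℕ → E →L[𝕜] E, (∀ n, FiniteDimensional 𝕜 (v n).toLinearMap.range) ∧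
    ∀ x, Tendsto (fun n => v n x) atTop (𝓝 x)

/-- `E` has a commuting approximative basis: the operators can be chosen with
`v n ∘ v m = v (min n m)` for all `n ≠ m`. -/
def HasCommutingApproximativeBasis (𝕜 : Type) [RCLike 𝕜] (E : Type u) [NormedAddCommGroup E]
    [NormedSpace 𝕜 E] : Prop :=
  ∃ v : ℕ → E →L[𝕜] E, (∀ n, FiniteDimensional 𝕜 (v n).toLinearMap.range) ∧
    (∀ x, Tendsto (fun n => v n x) atTop (𝓝 x)) ∧
    ∀ n m, n ≠ m → (v n).comp (v m) = v (min n m)

/-- The sequences `(G n)` of finite-dimensional spaces admitted in the definition of `C_p`: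
(i) every finite-dimensional space is `(1 + ε)`-isomorphic to some `G n`, for every `ε > 0`;
(ii) every `G i` is isometric to `G j` for infinitely many `j`. -/
structure IsAdmissible (𝕜 : Type) [RCLike 𝕜] (G : ℕ → Type u) [∀ n, NormedAddCommGroup (G n)]
    [∀ n, NormedSpace 𝕜 (G n)] : Prop where
  finite : ∀ n, FiniteDimensional 𝕜 (G n)
  dense : ∀ (A : Type u) [NormedAddCommGroup A] [NormedSpace 𝕜 A] [FiniteDimensional 𝕜 A]
    (ε : ℝ), 0 < ε → ∃ n, ∃ T : A ≃L[𝕜] G n,
      ‖(T : A →L[𝕜] G n)‖ * ‖(T.symm : G n →L[𝕜] A)‖ ≤ 1 + ε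
  repeated : ∀ i, {j | Nonempty (G i ≃ₗᵢ[𝕜] G j)}.Infinite

/-- **The case `1 < p < ∞`.** Let `(G n)` be admissible and `C_p = (⊕ G n)_{ℓᵖ}`, `1 < p < ∞`.
(1) A Banach space `E` has a commuting approximative basis if and only if `E × C_p` has a
Schauder basis.
(2) Hence the assertion of the question for this `p` (every `E` with an approximative basis makes
`E × C_p` have a basis) holds if and only if every Banach space with an approximative basis has
a commuting one. -/
theorem result (𝕜 : Type) [RCLike 𝕜] (p : ℝ≥0∞) [Fact (1 ≤ p)] (hp1 : 1 < p) (hp : p ≠ ∞)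
    (G : ℕ → Type u) [∀ n, NormedAddCommGroup (G n)] [∀ n, NormedSpace 𝕜 (G n)]
    (hG : IsAdmissible 𝕜 G) :
    (∀ (E : Type u) [NormedAddCommGroup E] [NormedSpace 𝕜 E] [CompleteSpace E],
      Nonempty (SchauderBasis 𝕜 (E × lp G p)) ↔ HasCommutingApproximativeBasis 𝕜 E) ∧
    ((∀ (E : Type u) [NormedAddCommGroup E] [NormedSpace 𝕜 E] [CompleteSpace E],
        HasApproximativeBasis 𝕜 E → Nonempty (SchauderBasis 𝕜 (E × lp G p))) ↔
      (∀ (E : Type u) [NormedAddCommGroup E] [NormedSpace 𝕜 E] [CompleteSpace E],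
        HasApproximativeBasis 𝕜 E → HasCommutingApproximativeBasis 𝕜 E)) := by
  have hmain : ∀ (E : Type u) [NormedAddCommGroup E] [NormedSpace 𝕜 E] [CompleteSpace E],
      Nonempty (SchauderBasis 𝕜 (E × lp G p)) ↔ HasCommutingApproximativeBasis 𝕜 E := by
    intro E _ _ _
    constructor
    · rintro ⟨b⟩
      have hfin := hG.finite
      refine Pool.Agent.Lib.MP_355270_an.converse (G := G) hp hp1 (fun n => b.proj n)
        (fun n => ?_) (fun z => SchauderBasis.tendsto_proj b z) (fun n m _ => ?_)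
      · rw [SchauderBasis.range_proj_eq_span]
        exact FiniteDimensional.span_of_finite 𝕜 (Set.Finite.image _ (Finset.finite_toSet _))
      · refine ContinuousLinearMap.ext (fun z => ?_)
        exact SchauderBasis.proj_comp b n m z
    · rintro ⟨v, hv1, hv2, hv3⟩
      exact Pool.Agent.Lib.MP_355270_an.basis_of_commuting hp hG.finite hG.dense hG.repeated v
        hv1 hv2 hv3
  refine ⟨hmain, ⟨fun h E _ _ _ hE => (hmain E).mp (h E hE),
    fun h E _ _ _ hE => (hmain E).mpr (h E hE)⟩⟩

end Pool.Agent.Results.MP_355270_an.MiddleRange
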